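import Mathlib
import Pool.Agent.Lib.helper48.MatroidLinear

set_option autoImplicit false

namespace Pool.Agent.Results.MP_e19463_co.LinearBound

/-- For a loopless matroid represented over any field by the columns of `A`, whose row space
is spanned by vectors of weight at most `k`, every characteristic root has modulus at most
`e (2 k - 1)`. -/
theorem result (𝔽 : Type) [Field 𝔽] (m n : ℕ) (A : Matrix (Fin m) (Fin n) 𝔽)
    (hA : ∀ j : Fin n, ∃ i : Fin m, A i j ≠ 0) (k : ℕ) (hk : 1 ≤ k)
    (s : Set (Fin n → 𝔽))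
    (hspan : Submodule.span 𝔽 s = Submodule.span 𝔽 (Set.range A))
    (hs : ∀ v ∈ s, {j : Fin n | v j ≠ 0}.ncard ≤ k) (q : ℂ)
    (hq : (∑ X : Finset (Fin n), (-1 : ℂ) ^ X.card *
        q ^ (Module.finrank 𝔽
                (Submodule.span 𝔽 (Set.range (fun j : Fin n => fun i : Fin m => A i j))) -
             Module.finrank 𝔽
                (Submodule.span 𝔽
                  ((fun j : Fin n => fun i : Fin m => A i j) '' (X : Set (Fin n)))))) = 0) :
    ‖q‖ ≤ Real.exp 1 * (2 * k - 1) := by
  obtain ⟨d, rfl⟩ : ∃ d, k = d + 1 := ⟨k - 1, by omega⟩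
  have h := Pool.Agent.Lib.helper48.Matroid.root_bound A hA d s hspan (fun v hv => by
    classical
    have := hs v hv
    rw [← Set.ncard_coe_finset, Finset.coe_filter_univ]
    exact this) q (by
    unfold Pool.Agent.Lib.helper48.Matroid.colrk
    rw [Finset.coe_univ, Set.image_univ]
    exact hq)
  have e : (2 * ((d + 1 : ℕ) : ℝ) - 1) = 2 * d + 1 := by
    push_cast
    ring
  rwa [e]

end Pool.Agent.Results.MP_e19463_co.LinearBound
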