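import Pool.Agent.MP_e19463_co.W.Rank

namespace Pool.Agent.Results.MP_e19463_co.WeightedAllMatroids

/-- Zeros of the multivariate Tutte polynomial of the restriction `M | E`, for an arbitrary
matroid `M` with a finite base `B` and arbitrary complex weights `v`. -/
theorem result {α : Type*} (M : Matroid α) (B E : Finset α) (hB : M.IsBase (B : Set α))
    (hE : ∀ e ∈ E, M.IsNonloop e) (v : α → ℂ) (Λ Ψ : ℝ)
    (h : ∀ b ∈ B, ∀ C ⊆ E, (∀ e ∈ C, e ∉ M.closure ((B : Set α) \ {b})) →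
      ∑ e ∈ C, ‖v e‖ ≤ Λ ∧ ∏ e ∈ C, max 1 ‖1 + v e‖ ≤ Ψ) (q : ℂ)
    (hq : ∑ X ∈ E.powerset, (∏ e ∈ X, v e) *
      q ^ ((M.eRk (E : Set α)).toNat - (M.eRk (X : Set α)).toNat) = 0) :
    ‖q‖ ≤ (3 + 2 * Real.sqrt 2) * Ψ * Λ := by
  classical
  exact Pool.Agent.MP_e19463_co.W.root_bound hB hE
    (fun b hb => (h b hb _ (Finset.filter_subset _ _) fun e he => (Finset.mem_filter.1 he).2).1)
    (fun b hb => (h b hb _ (Finset.filter_subset _ _) fun e he => (Finset.mem_filter.1 he).2).2) hq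

end Pool.Agent.Results.MP_e19463_co.WeightedAllMatroids
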